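import Mathlib

/-!
Project EN (helper8), package POS: positivity for rational matrices.
-/

namespace Pool.Agent.Helper68.EN

theorem trace_sq {W : Type} [Fintype W] (A : Matrix W W ℚ) :
    (A.transpose * A).trace = ∑ i, ∑ j, (A j i) ^ 2 := by
  simp only [Matrix.trace, Matrix.diag, Matrix.mul_apply, Matrix.transpose_apply, pow_two]

theorem trace_nonneg {W : Type} [Fintype W] (A : Matrix W W ℚ) :
    0 ≤ (A.transpose * A).trace := by
  rw [trace_sq]
  exact Finset.sum_nonneg fun i _ => Finset.sum_nonneg fun j _ => sq_nonneg _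

theorem trace_zero {W : Type} [Fintype W] (A : Matrix W W ℚ) (h : (A.transpose * A).trace = 0) :
    A = 0 := by
  rw [trace_sq] at h
  ext i j
  have h1 := (Finset.sum_eq_zero_iff_of_nonneg fun i _ =>
    Finset.sum_nonneg fun j _ => sq_nonneg _).1 h j (Finset.mem_univ _)
  have h2 := (Finset.sum_eq_zero_iff_of_nonneg fun j _ => sq_nonneg _).1 h1 i (Finset.mem_univ _)
  simpa using h2

theorem pos {W H : Type} [Fintype W] [DecidableEq W] [Fintype H] (E : H → Matrix W W ℚ)
    (X : Matrix W W ℚ)
    (h0 : (X.transpose * (∑ h, (E h).transpose * E h) * X * ∑ h, (E h).transpose * E h).trace = 0)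
    (h h' : H) : E h * X * (E h').transpose = 0 := by
  have key : (X.transpose * (∑ h, (E h).transpose * E h) * X * ∑ h, (E h).transpose * E h).trace =
      ∑ h', ∑ h, ((E h * X * (E h').transpose).transpose * (E h * X * (E h').transpose)).trace := by
    rw [Matrix.mul_sum, Matrix.trace_sum]
    refine Finset.sum_congr rfl fun h' _ => ?_
    rw [Matrix.mul_sum, Matrix.sum_mul, Matrix.sum_mul, Matrix.trace_sum]
    refine Finset.sum_congr rfl fun h _ => ?_
    have e1 : (E h * X * (E h').transpose).transpose * (E h * X * (E h').transpose) =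
        E h' * (X.transpose * ((E h).transpose * E h) * X * (E h').transpose) := by
      simp only [Matrix.transpose_mul, Matrix.transpose_transpose, Matrix.mul_assoc]
    rw [e1, Matrix.trace_mul_comm (E h')]
    simp only [Matrix.mul_assoc]
  rw [key] at h0
  have h1 := (Finset.sum_eq_zero_iff_of_nonneg fun h' _ =>
    Finset.sum_nonneg fun h _ => trace_nonneg _).1 h0 h' (Finset.mem_univ _)
  have h2 := (Finset.sum_eq_zero_iff_of_nonneg fun h _ => trace_nonneg _).1 h1 h (Finset.mem_univ _)
  exact trace_zero _ h2

end Pool.Agent.Helper68.EN
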